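import Pool.Agent.Z26.PolyPat.C

set_option autoImplicit false

namespace Pool.Agent.Results.MP_31db24_co.PolynomialFamilies

open Polynomial

/-- For every colouring of the positive integers with finitely many colours there are
`0 < b_0 < b_1 < ⋯` and an integer `t` such that all the integers `b_i + t` and
`f_l (b_i) + b_j + t` with `i < j` (for all members `f_l` of the family) are positive and have the
same colour. -/
def Partreg {m : ℕ} (f : Fin m → ℤ → ℤ) : Prop :=
  ∀ (r : ℕ) (c : ℕ → Fin r), ∃ (b : ℕ → ℕ) (t : ℤ) (k : Fin r), StrictMono b ∧ 0 < b 0 ∧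
    (∀ i : ℕ, ∃ n : ℕ, 0 < n ∧ (n : ℤ) = (b i : ℤ) + t ∧ c n = k) ∧
    ∀ (l : Fin m) (i j : ℕ), i < j →
      ∃ n : ℕ, 0 < n ∧ (n : ℤ) = f l (b i : ℤ) + (b j : ℤ) + t ∧ c n = k

/-- If a finite family of integer-valued polynomials has a common integer root, then the shifted
pattern is monochromatic for some shift in every finite colouring; conversely, if the pattern of
a finite family of functions is partition regular, then the functions have a common root modulo
every positive integer. For affine functions the existence of a common integer root is necessary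
and sufficient. -/
theorem result :
    (∀ (m : ℕ) (P : Fin m → ℚ[X]) (f : Fin m → ℤ → ℤ),
      (∀ (l : Fin m) (n : ℤ), (f l n : ℚ) = (P l).eval (n : ℚ)) →
      (∃ x : ℤ, ∀ l : Fin m, f l x = 0) → Partreg f) ∧
    (∀ (m : ℕ) (f : Fin m → ℤ → ℤ), Partreg f →
      ∀ M : ℕ, 0 < M → ∃ x : ℤ, ∀ l : Fin m, (M : ℤ) ∣ f l x) ∧
    (∀ (m : ℕ) (α β : Fin m → ℤ),
      Partreg (fun l n => α l * n + β l) ↔ ∃ x : ℤ, ∀ l : Fin m, α l * x + β l = 0) := by
  have h1 : ∀ (m : ℕ) (P : Fin m → ℚ[X]) (f : Fin m → ℤ → ℤ),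
      (∀ (l : Fin m) (n : ℤ), (f l n : ℚ) = (P l).eval (n : ℚ)) →
      (∃ x : ℤ, ∀ l : Fin m, f l x = 0) → Partreg f := by
    rintro m P f hf ⟨x0, hx0⟩ r c
    have hev : ∀ l (n : ℤ), ((P l).comp (X + C (x0 : ℚ))).eval (n : ℚ) = (f l (n + x0) : ℤ) := by
      intro l n
      rw [hf, eval_comp]
      simp
    obtain ⟨b, t, k, h1, h2, h3, h4⟩ := Pool.Agent.Z26.PolyPat.main
      (fun l => (P l).comp (X + C (x0 : ℚ)))
      (fun l => ⟨fun n => ⟨_, hev l n⟩, by
        have := hev l 0
        rw [Int.cast_zero, zero_add, hx0] at this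
        simpa using this⟩)
      (fun i : Fin r => {x : ℤ | 0 < x ∧ c x.toNat = i})
      (fun x hx => ⟨c x.toNat, hx, rfl⟩)
      (by
        rintro i j x ⟨-, h⟩ ⟨-, h'⟩
        rw [← h, ← h'])
    have hev' : ∀ l (n : ℤ), Pool.Agent.Z26.PolyPat.ev ((P l).comp (X + C (x0 : ℚ))) n =
        f l (n + x0) := by
      intro l n
      unfold Pool.Agent.Z26.PolyPat.ev
      rw [hev, Int.floor_intCast]
    have hge : ∀ i : ℕ, (i : ℤ) < b i := by
      intro i
      induction i with
      | zero => simpa using h2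
      | succ i ih =>
        have := h1 (show i < i + 1 by omega)
        push_cast
        omega
    let N := x0.natAbs
    have hpos : ∀ i, 0 < b (i + N) + x0 := by
      intro i
      have := hge (i + N)
      push_cast at this
      omega
    refine ⟨fun i => (b (i + N) + x0).toNat, t - x0, k, fun i j hij => ?_, ?_, fun i => ?_,
      fun l i j hij => ?_⟩
    · have := hpos i
      have := hpos j
      have := h1 (show i + N < j + N by omega)
      change (b (i + N) + x0).toNat < (b (j + N) + x0).toNat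
      omega
    · have := hpos 0
      change 0 < (b (0 + N) + x0).toNat
      omega
    · obtain ⟨h5, h6⟩ := h3 (i + N)
      refine ⟨_, ?_, ?_, h6⟩
      · omega
      · have := hpos i
        rw [Int.toNat_of_nonneg h5.le, Int.toNat_of_nonneg this.le]
        ring
    · obtain ⟨h5, h6⟩ := h4 l (i + N) (j + N) (by omega)
      refine ⟨_, ?_, ?_, h6⟩
      · omega
      · have e1 := hpos i
        have e2 := hpos j
        rw [Int.toNat_of_nonneg h5.le, Int.toNat_of_nonneg e1.le, Int.toNat_of_nonneg e2.le, hev']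
        ring
  have h2 : ∀ (m : ℕ) (f : Fin m → ℤ → ℤ), Partreg f →
      ∀ M : ℕ, 0 < M → ∃ x : ℤ, ∀ l : Fin m, (M : ℤ) ∣ f l x := by
    intro m f hf M hM
    obtain ⟨b, t, k, -, -, hb, hbb⟩ := hf M (fun n => ⟨n % M, Nat.mod_lt _ hM⟩)
    refine ⟨b 0, fun l => ?_⟩
    obtain ⟨n, -, h3, h4⟩ := hb 1
    obtain ⟨n', -, h5, h6⟩ := hbb l 0 1 Nat.zero_lt_one
    have h7 : n % M = n' % M := by
      rw [← h6] at h4
      exact congrArg Fin.val h4
    have h8 : (M : ℤ) ∣ (n' : ℤ) - n := (Nat.modEq_iff_dvd.1 h7)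
    rw [h3, h5] at h8
    convert h8 using 1
    ring
  refine ⟨h1, h2, fun m α β => ⟨fun h => ?_, fun h => ?_⟩⟩
  · have h3 := h2 m _ h
    by_cases hα : ∀ l, α l = 0
    · refine ⟨0, fun l => ?_⟩
      obtain ⟨x, hx⟩ := h3 ((β l).natAbs + 1) (by omega)
      have h4 := hx l
      simp only [hα l, zero_mul, zero_add] at h4 ⊢
      by_contra h5
      have := Int.le_of_dvd (by exact_mod_cast Int.natAbs_pos.2 h5) ((Int.dvd_natAbs).2 h4)
      push_cast at this
      omega
    · push Not at hα
      obtain ⟨l0, hl0⟩ := hα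
      obtain ⟨x, hx⟩ := h3 (α l0).natAbs (Int.natAbs_pos.2 hl0)
      have h4 : α l0 ∣ α l0 * x + β l0 := Int.natAbs_dvd.1 (hx l0)
      obtain ⟨y, hy⟩ := (Int.dvd_add_right (dvd_mul_right _ _)).1 h4
      refine ⟨-y, fun l => ?_⟩
      by_contra h5
      obtain ⟨z, hz⟩ := h3 ((α l0).natAbs * ((α l * -y + β l).natAbs + 1))
        (Nat.mul_pos (Int.natAbs_pos.2 hl0) (by omega))
      have h6 := hz l0
      have h7 := hz l
      set K : ℕ := (α l * -y + β l).natAbs + 1 with hK
      have h8 : (K : ℤ) ∣ z - -y := by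
        have h9 : α l0 * (K : ℤ) ∣ α l0 * (z - -y) := by
          have e : α l0 * (z - -y) = α l0 * z + β l0 := by rw [hy]; ring
          rw [e]
          refine dvd_trans ?_ h6
          rw [Nat.cast_mul]
          exact mul_dvd_mul_right (Int.dvd_natAbs.2 (dvd_refl (α l0))) _
        exact (mul_dvd_mul_iff_left hl0).1 h9
      have h10 : (K : ℤ) ∣ α l * z + β l := by
        refine dvd_trans ?_ h7
        rw [Nat.cast_mul]
        exact dvd_mul_left _ _
      have h11 : (K : ℤ) ∣ α l * -y + β l := by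
        have e : α l * -y + β l = (α l * z + β l) - α l * (z - -y) := by ring
        rw [e]
        exact dvd_sub h10 (dvd_mul_of_dvd_right h8 _)
      have := Int.le_of_dvd (by exact_mod_cast Int.natAbs_pos.2 h5) ((Int.dvd_natAbs).2 h11)
      rw [hK] at this
      push_cast at this
      omega
  · obtain ⟨x, hx⟩ := h
    refine h1 m (fun l => C (α l : ℚ) * X + C (β l : ℚ)) _ (fun l n => ?_) ⟨x, hx⟩
    simp

end Pool.Agent.Results.MP_31db24_co.PolynomialFamilies
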